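import Pool.Agent.Q87.Leonard.SL2

/-!
# Leonard triples without the required antiautomorphism
-/

namespace Pool.Agent.Results.MP_f77be9_al.NoAntiautomorphism

open Pool.Agent.Q87.Krawtchouk Polynomial

/-- `σ` is an antiautomorphism of the algebra of `n × n` matrices. -/
def IsAnti {K : Type*} [Field K] {n : ℕ}
    (σ : Matrix (Fin n) (Fin n) K ≃ₗ[K] Matrix (Fin n) (Fin n) K) : Prop :=
  ∀ M N, σ (M * N) = σ N * σ M

/-- There is an antiautomorphism which fixes `X` and sends each of the commutators `[X, Y]`,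
`[X, Z]` to a scalar multiple of the other one. -/
def HasAnti {K : Type*} [Field K] {n : ℕ} (X Y Z : Matrix (Fin n) (Fin n) K) : Prop :=
  ∃ σ : Matrix (Fin n) (Fin n) K ≃ₗ[K] Matrix (Fin n) (Fin n) K, IsAnti σ ∧ σ X = X ∧
    (∃ a : K, σ (commutatorMat X Y) = a • commutatorMat X Z) ∧
    (∃ a : K, σ (commutatorMat X Z) = a • commutatorMat X Y)

/-- The matrix unit. -/
def mu (K : Type*) [Field K] {n : ℕ} (i j : Fin n) : Matrix (Fin n) (Fin n) K :=
  Matrix.single i j 1

lemma anti_fix {K : Type*} [Field K] {n : ℕ} (x : Fin n → K) (hx : Function.Injective x)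
    (σ : Matrix (Fin n) (Fin n) K ≃ₗ[K] Matrix (Fin n) (Fin n) K) (hσ : IsAnti σ)
    (hfix : σ (Matrix.diagonal x) = Matrix.diagonal x) (i : Fin n) : σ (mu K i i) = mu K i i := by
  classical
  have h1 : Matrix.diagonal x * mu K i i = x i • mu K i i := by
    ext k l
    rw [Matrix.diagonal_mul, mu, Matrix.smul_apply, smul_eq_mul]
    by_cases hk : i = k
    · subst hk; rfl
    · simp [Matrix.single_apply_of_row_ne hk]
  have h2 : mu K i i * Matrix.diagonal x = x i • mu K i i := by
    ext k l
    rw [Matrix.mul_diagonal, mu, Matrix.smul_apply, smul_eq_mul]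
    by_cases hk : i = l
    · subst hk; rw [mul_comm]
    · simp [Matrix.single_apply_of_col_ne _ _ hk]
  have h1' := congrArg σ h1
  have h2' := congrArg σ h2
  rw [hσ, hfix, map_smul] at h1' h2'
  have h3 : ∀ k l, ¬ (k = i ∧ l = i) → σ (mu K i i) k l = 0 := by
    intro k l hkl
    by_contra hne
    have e1 := congrFun (congrFun h1' k) l
    have e2 := congrFun (congrFun h2' k) l
    rw [Matrix.mul_diagonal, Matrix.smul_apply, smul_eq_mul, mul_comm] at e1
    rw [Matrix.diagonal_mul, Matrix.smul_apply, smul_eq_mul] at e2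
    exact hkl ⟨hx (mul_right_cancel₀ hne e2), hx (mul_right_cancel₀ hne e1)⟩
  have h4 : σ (mu K i i) = (σ (mu K i i) i i) • mu K i i := by
    ext k l
    rw [Matrix.smul_apply, smul_eq_mul]
    by_cases hkl : k = i ∧ l = i
    · obtain ⟨rfl, rfl⟩ := hkl
      rw [mu, Matrix.single_apply_same, mul_one]
    · rw [h3 k l hkl, mu]
      have : ¬ (i = k ∧ i = l) := fun h => hkl ⟨h.1.symm, h.2.symm⟩
      rw [Matrix.single_apply_of_ne _ _ _ _ _ this, mul_zero]
  have hidem : mu K i i * mu K i i = mu K i i := by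
    rw [mu, Matrix.single_mul_single_same, mul_one]
  have h5 := congrArg σ hidem
  rw [hσ] at h5
  set c := σ (mu K i i) i i with hc
  have h6 : c * c = c := by
    have h7 := congrFun (congrFun h5 i) i
    rw [h4, Matrix.smul_mul, Matrix.mul_smul, smul_smul, hidem] at h7
    simpa [mu] using h7
  have hc0 : c ≠ 0 := by
    intro h0
    rw [h0, zero_smul] at h4
    have h8 : mu K i i = 0 := σ.injective (by rw [h4, map_zero])
    have h9 := congrFun (congrFun h8 i) i
    simp [mu] at h9
  have hc1 : c = 1 := by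
    have := mul_right_cancel₀ hc0 (h6.trans (one_mul c).symm)
    exact this
  rw [h4, hc1, one_smul]

lemma no_anti {K : Type*} [Field K] (hK : ∀ a : K, a * a ≠ -1) {n : ℕ} (x : Fin n → K)
    (hx : Function.Injective x) (Y Z : Matrix (Fin n) (Fin n) K) (i j : Fin n) (hij : i ≠ j)
    (h1 : Y i j ≠ 0) (h2 : Y j i ≠ 0) (h3 : Z i j * Z j i = -(Y i j * Y j i)) :
    ¬ HasAnti (Matrix.diagonal x) Y Z := by
  classical
  rintro ⟨σ, hσ, hfix, ⟨a, ha⟩, _⟩
  have hi := anti_fix x hx σ hσ hfix i
  have hj := anti_fix x hx σ hσ hfix j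
  have key : ∀ (p q : Fin n), σ (mu K p p) = mu K p p → σ (mu K q q) = mu K q q →
      ∀ M, (σ M) q p = M p q * σ (mu K p q) q p := by
    intro p q hp hq M
    have e1 : mu K p p * M * mu K q q = M p q • mu K p q := by
      ext k l
      simp only [mu]
      rw [Matrix.smul_apply, smul_eq_mul]
      by_cases hk : p = k
      · subst hk
        by_cases hl : q = l
        · subst hl
          simp [Matrix.mul_single_apply_same, Matrix.single_mul_apply_same]
        · rw [Matrix.mul_single_apply_of_ne _ _ _ _ _ (fun h => hl h.symm),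
            Matrix.single_apply_of_ne _ _ _ _ _ (fun h => hl h.2), mul_zero]
      · rw [Matrix.single_apply_of_ne _ _ _ _ _ (fun h => hk h.1), mul_zero,
          Matrix.mul_assoc, Matrix.single_mul_apply_of_ne _ _ _ _ _ (fun h => hk h.symm)]
    have e2 := congrArg σ e1
    rw [hσ, hσ, hp, hq, map_smul] at e2
    have e3 := congrFun (congrFun e2 q) p
    rw [← Matrix.mul_assoc, Matrix.smul_apply, smul_eq_mul] at e3
    rw [← e3]
    simp [mu, Matrix.mul_single_apply_same, Matrix.single_mul_apply_same]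
  have kij := key i j hi hj
  have kji := key j i hj hi
  have hprod : σ (mu K i j) j i * σ (mu K j i) i j = 1 := by
    have e1 : mu K i j * mu K j i = mu K i i := by
      rw [mu, mu, Matrix.single_mul_single_same, mul_one]; rfl
    have e2 := congrArg σ e1
    rw [hσ, hi] at e2
    -- express `σ (mu i j)` as a multiple of a matrix unit
    have e3 : mu K j j * σ (mu K i j) * mu K i i = σ (mu K i j) := by
      have : mu K i i * mu K i j * mu K j j = mu K i j := by
        simp [mu, Matrix.single_mul_single_same]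
      have h := congrArg σ this
      rw [hσ, hσ, hi, hj, ← Matrix.mul_assoc] at h
      exact h
    have e4 := congrFun (congrFun e2 i) i
    rw [← e3, ← Matrix.mul_assoc, ← Matrix.mul_assoc] at e4
    simp only [mu] at e4
    rw [Matrix.mul_single_apply_same, Matrix.mul_apply, Finset.sum_eq_single j] at e4
    · rw [Matrix.mul_single_apply_same] at e4
      simp only [Matrix.single_apply_same, mul_one] at e4
      rw [mul_comm]
      exact e4
    · intro k _ hk
      rw [Matrix.mul_single_apply_of_ne _ _ _ _ _ hk, zero_mul]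
    · intro h; exact absurd (Finset.mem_univ _) h
  have c1 := kij (commutatorMat (Matrix.diagonal x) Y)
  have c2 := kji (commutatorMat (Matrix.diagonal x) Y)
  rw [ha] at c1 c2
  simp only [commutatorMat, Matrix.smul_apply, smul_eq_mul, Matrix.sub_apply,
    Matrix.diagonal_mul, Matrix.mul_diagonal] at c1 c2
  have hxij : x i - x j ≠ 0 := sub_ne_zero.2 fun h => hij (hx h)
  set s := σ (mu K i j) j i
  set t := σ (mu K j i) i j
  have c1' : -(a * Z j i) = Y i j * s := by
    apply mul_right_cancel₀ hxij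
    linear_combination c1
  have c2' : -(a * Z i j) = Y j i * t := by
    apply mul_right_cancel₀ hxij
    linear_combination -c2
  have c3 : (a * a) * (Z i j * Z j i) = Y i j * Y j i := by
    have : (-(a * Z j i)) * (-(a * Z i j)) = (Y i j * s) * (Y j i * t) := by rw [c1', c2']
    linear_combination this + (Y i j * Y j i) * hprod
  rw [h3] at c3
  have hY : Y i j * Y j i ≠ 0 := mul_ne_zero h1 h2
  apply hK a
  apply mul_right_cancel₀ hY
  linear_combination -c3

/-- If `-1` is not a square in the field `K` of characteristic zero (for instance `K = ℚ` or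
`K = ℝ`), then in every dimension `d + 1 ≥ 2` there is a Leonard triple `(X, Y, Z)` for which no
antiautomorphism fixing `X` exchanges the lines of `[X, Y]` and `[X, Z]`. -/
theorem result (K : Type*) [Field K] [CharZero K] (hK : ∀ a : K, a * a ≠ -1) (d : ℕ)
    (hd : 1 ≤ d) :
    ∃ X Y Z : Matrix (Fin (d + 1)) (Fin (d + 1)) K, LeonardTriple X Y Z ∧ ¬ HasAnti X Y Z := by
  classical
  have hopE : ∀ a b : K, opE K 1 (C a + C b * X) = C b := by
    intro a b
    simp only [opE, derivative_add, derivative_mul, derivative_C, derivative_X]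
    ring
  have hopF : ∀ a b : K, opF K 1 (C a + C b * X) = C a * X := by
    intro a b
    simp only [opF, derivative_add, derivative_mul, derivative_C, derivative_X, Nat.cast_one, C_1]
    ring
  have hopB : ∀ a b : K, opB K 1 (C a + C b * X) = C a + C (-b) * X := by
    intro a b
    simp only [opB, derivative_add, derivative_mul, derivative_C, derivative_X, Nat.cast_one, C_1,
      C_neg]
    ring
  have hlin : ∀ a b : K, (C a + C b * X : K[X]).natDegree ≤ 1 := by
    intro a b
    rw [add_comm]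
    exact natDegree_linear_le
  have hne : ∀ a b : K, a ≠ 0 ∨ b ≠ 0 → (C a + C b * X : K[X]) ≠ 0 := by
    intro a b hab h
    have h0 := congrArg (fun p => coeff p 0) h
    have h1 := congrArg (fun p => coeff p 1) h
    simp at h0 h1
    rcases hab with hab | hab
    · exact hab h0
    · exact hab h1
  have h10 : (1 : K) ≠ 0 := one_ne_zero
  have h34 : (3 / 4 : K) ≠ 0 := by norm_num
  -- a polynomial identity checker
  have hid : ∀ p q a b a' b' e f : K, e = p * a + q * a' → f = p * b + q * b' →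
      (C e + C f * X : K[X]) = C p * (C a + C b * X) + C q * (C a' + C b' * X) := by
    intro p q a b a' b' e f h1 h2
    rw [h1, h2]
    simp only [C_add, C_mul]
    ring
  have hE' : ∀ p q a b a' b' b0 : K, b0 = p * a + q * a' → 0 = p * b + q * b' →
      (C b0 : K[X]) = C p * (C a + C b * X) + C q * (C a' + C b' * X) := by
    intro p q a b a' b' b0 h1 h2
    rw [← hid p q a b a' b' b0 0 h1 h2]; simp
  have hF' : ∀ p q a b a' b' a0 : K, 0 = p * a + q * a' → a0 = p * b + q * b' →
      (C a0 * X : K[X]) = C p * (C a + C b * X) + C q * (C a' + C b' * X) := by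
    intro p q a b a' b' a0 h1 h2
    rw [← hid p q a b a' b' 0 a0 h1 h2]; simp
  -- basis diagonalising h
  obtain ⟨b1, hb1⟩ := exists_basis_sl (K := K) d (u := C 1 + C 0 * X) (v := C 0 + C 1 * X)
    (hlin _ _) (hlin _ _) (hne _ _ (Or.inl h10)) (hne _ _ (Or.inr h10))
    (αe := 0) (βe := 0) (γe := 1) (δe := 0) (αf := 0) (βf := 1) (γf := 0) (δf := 0)
    (α := 1) (β := 0) (γ := 0) (δ := -1)
    (by rw [hopE]; exact hE' _ _ _ _ _ _ _ (by ring) (by ring))
    (by rw [hopE]; exact hE' _ _ _ _ _ _ _ (by ring) (by ring))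
    (by rw [hopF]; exact hF' _ _ _ _ _ _ _ (by ring) (by ring))
    (by rw [hopF]; exact hF' _ _ _ _ _ _ _ (by ring) (by ring))
    (by rw [hopB]; exact hid _ _ _ _ _ _ _ _ (by ring) (by ring))
    (by rw [hopB]; exact hid _ _ _ _ _ _ _ _ (by ring) (by ring))
    0 0 1 (lam := 1) h10 (by ring) (by ring) (by ring) (by ring)
  -- basis diagonalising e + f
  obtain ⟨b2, hb2⟩ := exists_basis_sl (K := K) d (u := C 1 + C 1 * X) (v := C 1 + C (-1) * X)
    (hlin _ _) (hlin _ _) (hne _ _ (Or.inl h10)) (hne _ _ (Or.inl h10))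
    (αe := 1/2) (βe := 1/2) (γe := -(1/2)) (δe := -(1/2))
    (αf := 1/2) (βf := -(1/2)) (γf := 1/2) (δf := -(1/2))
    (α := 0) (β := 1) (γ := 1) (δ := 0)
    (by rw [hopE]; exact hE' _ _ _ _ _ _ _ (by ring) (by ring))
    (by rw [hopE]; exact hE' _ _ _ _ _ _ _ (by ring) (by ring))
    (by rw [hopF]; exact hF' _ _ _ _ _ _ _ (by ring) (by ring))
    (by rw [hopF]; exact hF' _ _ _ _ _ _ _ (by ring) (by ring))
    (by rw [hopB]; exact hid _ _ _ _ _ _ _ _ (by ring) (by ring))
    (by rw [hopB]; exact hid _ _ _ _ _ _ _ _ (by ring) (by ring))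
    1 1 0 (lam := 1) h10 (by ring) (by ring) (by ring) (by ring)
  -- basis diagonalising e - f + 5/4 h
  obtain ⟨b3, hb3⟩ := exists_basis_sl (K := K) d (u := C 2 + C (-1) * X) (v := C 1 + C (-2) * X)
    (hlin _ _) (hlin _ _) (hne _ _ (Or.inr (by norm_num))) (hne _ _ (Or.inl h10))
    (αe := -(2/3)) (βe := 1/3) (γe := -(4/3)) (δe := 2/3)
    (αf := 2/3) (βf := -(4/3)) (γf := 1/3) (δf := -(2/3))
    (α := 5/3) (β := -(4/3)) (γ := 4/3) (δ := -(5/3))
    (by rw [hopE]; exact hE' _ _ _ _ _ _ _ (by ring) (by ring))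
    (by rw [hopE]; exact hE' _ _ _ _ _ _ _ (by ring) (by ring))
    (by rw [hopF]; exact hF' _ _ _ _ _ _ _ (by ring) (by ring))
    (by rw [hopF]; exact hF' _ _ _ _ _ _ _ (by ring) (by ring))
    (by rw [hopB]; exact hid _ _ _ _ _ _ _ _ (by ring) (by ring))
    (by rw [hopB]; exact hid _ _ _ _ _ _ _ _ (by ring) (by ring))
    1 (-1) (5/4) (lam := 3/4) h34 (by ring) (by ring) (by ring) (by ring)
  have diag : ∀ {α β γ δ : K}, β = 0 → γ = 0 → IsDiagonal (triM d α β γ δ) := by
    rintro α β γ δ rfl rfl; exact triM_diag d _ _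
  refine ⟨slM K d 0 0 1, slM K d 1 1 0, slM K d 1 (-1) (5/4),
    ⟨⟨b1, ?_, ?_, ?_⟩, ⟨b2, ?_, ?_, ?_⟩, ⟨b3, ?_, ?_, ?_⟩⟩, ?_⟩
  · rw [hb1]; exact diag (by ring) (by ring)
  · rw [hb1]; exact triM_irred d (by norm_num) (by norm_num)
  · rw [hb1]; exact triM_irred d (by norm_num) (by norm_num)
  · rw [hb2]; exact diag (by ring) (by ring)
  · rw [hb2]; exact triM_irred d (by norm_num) (by norm_num)
  · rw [hb2]; exact triM_irred d (by norm_num) (by norm_num)
  · rw [hb3]; exact diag (by ring) (by ring)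
  · rw [hb3]; exact triM_irred d (by norm_num) (by norm_num)
  · rw [hb3]; exact triM_irred d (by norm_num) (by norm_num)
  -- no antiautomorphism
  have hd0 : (d : K) ≠ 0 := by
    have : d ≠ 0 := by omega
    exact_mod_cast this
  let i0 : Fin (d + 1) := ⟨0, by omega⟩
  let i1 : Fin (d + 1) := ⟨1, by omega⟩
  have h01 : i0 ≠ i1 := by simp [i0, i1]
  have eE1 : slE K d i0 i1 = d := by simp [slE, i0, i1]
  have eE2 : slE K d i1 i0 = 0 := by simp [slE, i0, i1]
  have eF1 : slF K d i0 i1 = 0 := by simp [slF, i0, i1]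
  have eF2 : slF K d i1 i0 = 1 := by simp [slF, i0, i1]
  have eB1 : krawB K d i0 i1 = 0 := by rw [krawB, Matrix.diagonal_apply_ne _ h01]
  have eB2 : krawB K d i1 i0 = 0 := by rw [krawB, Matrix.diagonal_apply_ne _ h01.symm]
  have hX : slM K d 0 0 1 = Matrix.diagonal fun i : Fin (d + 1) => (d : K) - 2 * (i : ℕ) := by
    simp [slM, krawB]
  rw [hX]
  refine no_anti hK _ ?_ _ _ i0 i1 h01 ?_ ?_ ?_
  · intro i j hij
    simp only at hij
    have h3 : (2 : K) ≠ 0 := two_ne_zero
    have h4 : (2 : K) * (i : ℕ) = 2 * (j : ℕ) := by linear_combination -hij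
    exact Fin.ext (by exact_mod_cast mul_left_cancel₀ h3 h4)
  · simp only [slM, Matrix.add_apply, Matrix.smul_apply, smul_eq_mul, eE1, eF1, eB1]
    simpa using hd0
  · simp only [slM, Matrix.add_apply, Matrix.smul_apply, smul_eq_mul, eE2, eF2, eB2]
    simp
  · simp only [slM, Matrix.add_apply, Matrix.smul_apply, smul_eq_mul, eE1, eF1, eB1, eE2, eF2,
      eB2]
    ring

end Pool.Agent.Results.MP_f77be9_al.NoAntiautomorphism
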